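import Pool.Agent.H20.Gm3

set_option autoImplicit false

namespace Pool.Agent.Results.MP_b101b2_co.Mate

open Classical in
theorem result (k : ℕ) (hk : 6 ≤ k) :
    ∃ G' : SimpleGraph {A : Finset (Fin (2 * k)) // A.card = k},
      (G'.adjMatrix ℝ).charpoly = ((H20Gm.J k).adjMatrix ℝ).charpoly ∧
      IsEmpty (H20Gm.J k ≃g G') :=
  ⟨H20Gm.G2 hk, by convert H20Gm.cospec hk, H20Gm.not_iso hk⟩

end Pool.Agent.Results.MP_b101b2_co.Mate
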